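import Pool.Agent.KT.Alg.All
import Pool.Agent.KT.Final
import Pool.Agent.Helper7.CM8.Main

/-!
Grothendieck classes on abelian varieties over `ℚ̄`, the simple factors of which have real
multiplication of relative dimension one (`GL_2`-type over the algebraic closure) or two, or complex
multiplication, or are surfaces without endomorphisms. In particular all simple factors of dimension
one and two are allowed.

Let `X` be an abelian variety over `ℚ̄` such that every simple factor `B` of `X` is of one of the
following four kinds:

* `IsRMType B K`: there is a totally real field `K`, `[K : ℚ] = dim B`, of Rosati-symmetric elements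
  of `End(B) ⊗ ℚ`, which is equal to its centraliser in `End(B) ⊗ ℚ`;
* `B.HasCM K ρ`: the field `K`, `[K : ℚ] = 2 dim B`, acts on `B` up to isogeny;
* `B.IsRelTwoFactor X K`: `End(B) ⊗ ℚ` is the totally real field `K`, `dim B = 2 [K : ℚ]`,
  `dim Hom(B, X) ⊗ ℚ ≤ dim B` (`B` occurs at most twice in `X`), and for every factor `C` of the
  first kind, with the field `K'`: `K` does not embed into `K'`, or `End(C) ⊗ ℚ = K'` is not
  isomorphic to `K`, or `dim Hom(B, X) ⊗ ℚ ≤ [K : ℚ]` (`B` occurs once in `X`) and
  `dim Hom(C, X) ⊗ ℚ ≤ 2 dim C`;
* `B.IsGenericSurface`: `dim B = 2` and all endomorphisms of the rational Hodge structure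
  `H_1(B, ℚ)` are scalar, that is, `End(B) ⊗ ℚ = ℚ`. Such factors may occur with any multiplicity.

Then a class `α` in `H^{2k}_{Gr}(X, ℚ(k))` is a Hodge class, that is, lies in `F^k`

* if it lies in `F^{k-1}` (`X.IsInFilPred k α`),
* or, for arbitrary `α`, if `X.IsCMPairVar`: each field `K`, `[K : ℚ] = 2g`, of a factor of the
  second kind is abelian over `ℚ`, or `g` is a prime number, or `g = 4`, or all the `Aut(ℂ)`-stable
  spaces of odd functions `Hom(K, ℂ) → ℚ` have dimension `≤ 1` or `≥ g - 1`; and for two
  non-isogenous factors of the second kind, their fields `K`, `K'` are both abelian over `ℚ`, or one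
  of them is quadratic, or the odd functions on `Hom(K, ℂ)` and on `Hom(K', ℂ)` have no isomorphic
  stable subspaces of dimension `> 1`, or `K` and `K'` are good (that is, of the kinds above other
  than `g = 4`) with different Galois closures.

For `X` of CM type and of dimension at most five the last condition holds unless `X` has two
non-isogenous simple factors of dimension two with non-abelian fields which have the same Galois
closure; it holds for `X = B^m`, `B` simple of CM type of dimension at most five, for all `m`.

No hypothesis on `X` other than the stated ones is made, and nothing is assumed. The new ingredient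
for the fourth kind is a theorem on the periods of abelian surfaces: a period vector of such a
surface is not proportional to a point of a rational curve over `ℚ̄`.
-/

namespace Pool.Agent.Helper7.Kept.GLTwoSurfacesCM

open Pool.Agent.GPC

theorem result (X : AbVar)
    (hX : ∀ B : AbVar, B.IsSimpleFactor X →
      (∃ (K : Type) (_ : Field K) (_ : NumberField K), IsRMType B K) ∨
      (∃ (K : Type) (_ : Field K) (_ : NumberField K) (ρ : K → B.H1 → B.H1), B.HasCM K ρ) ∨
      (∃ (K : Type) (_ : Field K) (_ : NumberField K), B.IsRelTwoFactor X K) ∨
      B.IsGenericSurface)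
    (k : ℕ) (α : X.Class (2 * k)) (hα : X.IsGrothendieckClass k α)
    (hCM : X.IsInFilPred k α ∨ X.IsCMPairVar) : X.IsInFil k α :=
  Pool.Agent.Helper7.CM8.main_8 Pool.Agent.KT.thm_KT Pool.Agent.KT.Alg.Act_
    Pool.Agent.KT.Alg.thm_Gen X hX k α hα hCM

end Pool.Agent.Helper7.Kept.GLTwoSurfacesCM
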