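import Pool.Agent.Helper7.LEF.Final

/-!
Grothendieck classes and Hodge classes on abelian varieties over `ℚ̄`.

Let `X` be an abelian variety over `ℚ̄`, `Z` a commutative algebra in `End(X) ⊗ ℚ`, stable under the
Rosati involution (`X.IsRosatiAct Z ρ`), and `α` a class in `H^{2k}_{Gr}(X, ℚ(k))`. Then `α` is a Hodge
class, that is, lies in `F^k`, under the following two conditions.

(I) `Z` is the centre of `End(X) ⊗ ℚ` (`X.IsCentreAct Z ρ`), and every simple factor `B` of `X` is of one of
the following four kinds (`X.HasLowFactors`):

* `dim B ≤ 2`;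
* `IsRMType B K`: there is a totally real field `K`, `[K : ℚ] = dim B`, of Rosati-symmetric elements
  of `End(B) ⊗ ℚ`, which is equal to its centraliser in `End(B) ⊗ ℚ`;
* `B.HasCM K ρ`: the field `K`, `[K : ℚ] = 2 dim B`, acts on `B` up to isogeny;
* `B.IsRelTwoFactor X K`: `End(B) ⊗ ℚ` is the totally real field `K`, `dim B = 2 [K : ℚ]`,
  `dim Hom(B, X) ⊗ ℚ ≤ dim B` (`B` occurs at most twice in `X`), and for every factor `C` of the
  second kind, with the field `K'`: `K` does not embed into `K'`, or `End(C) ⊗ ℚ = K'` is not
  isomorphic to `K`, or `dim Hom(B, X) ⊗ ℚ ≤ [K : ℚ]` (`B` occurs once in `X`) and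
  `dim Hom(C, X) ⊗ ℚ ≤ 2 dim C`;

or, for arbitrary `X`, the class `α` is killed (`X.IsInvAct Z ρ α`) by all `f` in `sp(H_1(X, ℂ))` which
commute with the endomorphisms commuting with `Z` and satisfy `trace (f z) = 0` for `z` in `Z`
(`X.IsDerAct Z ρ f`).

(II) One of the following four conditions holds:

* the Hodge types of `α` are among `(k, k)`, `(k + j, k - j)`, `(k - j, k + j)` for some `j`
  (`X.HasTypes k j α`; for `j = 1` these are the classes in `F^{k-1}`);
* every number field which is a quotient of `Z` is totally real or abelian over `ℚ`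
  (`HasAbelianQuotients Z`);
* every `Aut(ℂ)`-stable `ℚ`-vector space of odd functions `Hom(Z, ℂ) → ℚ`, some member of which has
  non-zero weight at `1`, contains such a member all of whose weights are `0`, `N` or `-N`
  (`X.HasThreeWeightsAct Z ρ`; the weight of `f` at `g` is `∑ f(g σ) dim V_σ`, where `V_σ` is the
  `σ`-eigenspace of `Z` in `F^0 H_1(X)`). For a CM field `Z` this holds for example if there are no
  stable spaces of odd functions other than `0` and the space of all odd functions, and all
  `dim V_σ` are in `{a, d - a, d / 2}` for some `a`, where `d = 2 dim X / [Z : ℚ]`;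
* every simple factor is of one of the four kinds above and `X.IsCMPairVar` holds: each field `K`,
  `[K : ℚ] = 2g`, of a factor with complex multiplication is abelian over `ℚ`, or `g` is a prime number,
  or `g = 4`, or all the `Aut(ℂ)`-stable spaces of odd functions `Hom(K, ℂ) → ℚ` have dimension `≤ 1` or
  `≥ g - 1`; and for two non-isogenous factors with complex multiplication, their fields `K`, `K'` are both
  abelian over `ℚ`, or one of them is quadratic, or the odd functions on `Hom(K, ℂ)` and on
  `Hom(K', ℂ)` have no isomorphic stable subspaces of dimension `> 1`, or `K` and `K'` are good (that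
  is, of the kinds above other than `g = 4`) with different Galois closures.

The conditions hold for all powers of all abelian surfaces. If `Z` is the centre of `End(X) ⊗ ℚ`, the
`f` in (I) form the derived algebra of the Lefschetz Lie algebra of `X`. If `Z` is a CM field `K` of
endomorphisms, `k [K : ℚ] = dim X`, all Weil classes for `K` satisfy the last condition in (I): so
non-zero Weil classes of unbalanced signature are not Grothendieck classes if `K` is abelian over
`ℚ`. No hypothesis on `X` other than the stated ones is made, and nothing is assumed.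
-/

namespace Pool.Agent.Helper7.Kept.GrothendieckHodge

open Pool.Agent.GPC

theorem result (X : AbVar) (Z : Type) [CommRing Z] [Algebra ℚ Z] (ρ : Z → X.H1 → X.H1)
    (hZ : X.IsRosatiAct Z ρ) (k : ℕ) (α : X.Class (2 * k)) (hα : X.IsGrothendieckClass k α)
    (h1 : X.IsInvAct Z ρ α ∨ X.IsCentreAct Z ρ ∧ X.HasLowFactors)
    (h2 : (∃ j, X.HasTypes k j α) ∨ HasAbelianQuotients Z ∨ X.HasThreeWeightsAct Z ρ ∨
      X.HasLowFactors ∧ X.IsCMPairVar) : X.IsInFil k α :=
  Pool.Agent.Helper7.LEF.final X Z ρ hZ k α hα h1 h2

end Pool.Agent.Helper7.Kept.GrothendieckHodge
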