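import Pool.Agent.Helper7.UN.Main
import Pool.Agent.KT2.All

/-!
The Grothendieck period conjecture for simple abelian varieties of prime and of prime square
dimension and for abelian varieties of ball type over the algebraic numbers.

A class in `H^{2k}(A^m, ℂ)` lies in `H^{2k}_{Gr}(A^m, ℚ(k)) = H^{2k}_{dR}(A^m) ∩ H^{2k}(A^m, ℚ(k))`
if and only if it is a linear combination, with rational coefficients, of `k`-fold products of
classes of divisors `h^{-1}(D)`, `D` a hyperplane section of `A` and `h : A^m → A` a homomorphism
(tensor `ℚ`), if (`AbVar.IsDivisorRange`, `E = End(A) ⊗ ℚ`)

(1) (`IsPrimeType`, `m = 1`) `A` is simple, `dim A` is an odd prime number, `E ≠ ℚ`, and, if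
`dim A ≥ 5`, `E` is not an imaginary quadratic field with the multiplicities `(dim A ± 1) / 2` in
`Lie A`; or

(2) (`IsPrimeSquareType`) `A` is simple, `dim A = p ^ 2`, `p` an odd prime number, and `E` is not
commutative; or

(3) (`IsPicardType`) `A` is simple, `dim A ≥ 3`, `E` contains an imaginary quadratic field `F` of
signature `(dim A - 1, 1)`, `k` is arbitrary, and `m = 1`, or `m` is arbitrary, `dim A` is even and
`E = F`; or

(4) `E` contains a CM field `K` which is its own centralizer in `E`, the Rosati involution is complex
conjugation on `K`, and `n = 2 dim A / [K : ℚ] ≥ 3`. The signature of `K` is `(n - 1, 1)` at the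
embeddings over one place `s` of the centre of `E`, and this place is separated from the others: for
every other place `t` some automorphism of `ℂ` maps `s` to a mixed and `t` to a definite place (for
instance if all places different from `s` and its conjugate are definite). Moreover (`d = n` for `n`
odd, `d = n / 2` for `n` even) `E = K`, `m = 1`, and `k < d` or `k > dim A - d` (`IsBallComm`), or `E`
has no anti-automorphism which is the identity on its centre (equivalently, the index of the simple
algebra `E` is at least `3`), and the centre of `E` is imaginary quadratic (all `k` and `m`) or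
`k < d` or `k > m dim A - d` (`IsBallNoAnti`).

No hypothesis other than the stated ones is made, and nothing is assumed.
-/

namespace Pool.Agent.Helper7.Kept.PrimeAndBall

open Pool.Agent.GPC

theorem result (A : AbVar) (m k : ℕ) (h : A.IsDivisorRange m k)
    (α : Form (fun _ : Unit => A) (fun _ => m) (2 * k)) :
    IsGrothendieck (fun _ : Unit => A) (fun _ => m) k α ↔
      IsDivisorial (fun _ : Unit => A) (fun _ => m) k α :=
  Pool.Agent.Helper7.UN.main KT2.All.Fin_ KT2.All.Fid_ A m k h α

end Pool.Agent.Helper7.Kept.PrimeAndBall
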